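import Pool.Agent.MP_52931c_nt.Proof

namespace Pool.Agent.Results.MP_52931c_nt.PolylogLower

open Pool.Agent.MP_52931c_nt

/-- For every `t ≥ 3`, `g_t(n) ≥ 1 / (log n)^3` for all large `n`; so Q1 fails for `k = 3`. -/
theorem result :
    ∀ t : ℕ, 3 ≤ t → ∃ n₀ : ℕ, ∀ n : ℕ, n₀ ≤ n → 1 / (Real.log n) ^ 3 ≤ g t n :=
  fun t ht => main t ht

end Pool.Agent.Results.MP_52931c_nt.PolylogLower
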